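import Mathlib
import Pool.Agent.W555.KS.Defs2

/-!
# Project KS: the boundary complex of the cyclic polytope embeds in the sphere
-/

set_option autoImplicit false

namespace Pool.Agent.W540.KS

open Finset Pool.Agent.W555.KS Filter Topology

/-- the functional as a polynomial -/
lemma poly_iff {n d : ℕ} (S : Finset (Fin n)) :
    (∃ a : Fin d → ℝ, ∃ c : ℝ,
      (∀ i ∈ S, ∑ j : Fin d, a j * ((i : ℕ) : ℝ) ^ ((j : ℕ) + 1) = c) ∧
      (∀ i : Fin n, i ∉ S → ∑ j : Fin d, a j * ((i : ℕ) : ℝ) ^ ((j : ℕ) + 1) < c)) ↔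
    ∃ q : Polynomial ℝ, q.natDegree ≤ d ∧ (∀ i ∈ S, q.eval ((i : ℕ) : ℝ) = 0) ∧
      ∀ i : Fin n, i ∉ S → q.eval ((i : ℕ) : ℝ) < 0 := by
  constructor
  · rintro ⟨a, c, h1, h2⟩
    have he : ∀ t : ℝ, (∑ j : Fin d, Polynomial.C (a j) * Polynomial.X ^ ((j : ℕ) + 1) -
        Polynomial.C c).eval t = ∑ j : Fin d, a j * t ^ ((j : ℕ) + 1) - c := by
      intro t
      simp [Polynomial.eval_finsetSum]
    refine ⟨∑ j : Fin d, Polynomial.C (a j) * Polynomial.X ^ ((j : ℕ) + 1) - Polynomial.C c,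
      ?_, ?_, ?_⟩
    · refine (Polynomial.natDegree_sub_le _ _).trans (max_le ?_ ?_)
      · refine Polynomial.natDegree_sum_le_of_forall_le _ _ fun j _ => ?_
        refine (Polynomial.natDegree_C_mul_X_pow_le _ _).trans ?_
        have := j.2
        omega
      · simp
    · intro i hi
      rw [he, h1 i hi, sub_self]
    · intro i hi
      rw [he]
      linarith [h2 i hi]
  · rintro ⟨q, hq, h1, h2⟩
    have he : ∀ t : ℝ, ∑ j : Fin d, q.coeff ((j : ℕ) + 1) * t ^ ((j : ℕ) + 1) =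
        q.eval t - q.coeff 0 := by
      intro t
      rw [Polynomial.eval_eq_sum_range' (Nat.lt_succ_of_le hq), Finset.sum_range_succ',
        Finset.sum_range (fun j => q.coeff (j + 1) * t ^ (j + 1))]
      ring
    refine ⟨fun j => q.coeff ((j : ℕ) + 1), - q.coeff 0, ?_, ?_⟩
    · intro i hi
      rw [he, h1 i hi]
      ring
    · intro i hi
      rw [he]
      linarith [h2 i hi]

lemma mem_cyc {n d : ℕ} (S : Finset (Fin n)) : S ∈ cyc n d ↔ S ≠ univ ∧
    ∃ q : Polynomial ℝ, q.natDegree ≤ d ∧ (∀ i ∈ S, q.eval ((i : ℕ) : ℝ) = 0) ∧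
      ∀ i : Fin n, i ∉ S → q.eval ((i : ℕ) : ℝ) < 0 := by
  rw [← poly_iff]
  simp [cyc]

lemma cast_inj {n : ℕ} : Function.Injective (fun i : Fin n => ((i : ℕ) : ℝ)) := by
  intro i j h
  have h' : ((i : ℕ) : ℝ) = ((j : ℕ) : ℝ) := h
  exact Fin.ext (by exact_mod_cast h')

lemma card_le {n d : ℕ} {S : Finset (Fin n)} (hS : S ∈ cyc n d) : S.card ≤ d := by
  obtain ⟨hne, q, hq, h1, h2⟩ := (mem_cyc S).mp hS
  by_contra hlt
  push Not at hlt
  have h0 : q = 0 := by
    refine Polynomial.eq_zero_of_natDegree_lt_card_of_eval_eq_zero' q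
      (S.image fun i : Fin n => ((i : ℕ) : ℝ)) ?_ ?_
    · intro t ht
      obtain ⟨i, hi, rfl⟩ := Finset.mem_image.mp ht
      exact h1 i hi
    · rw [Finset.card_image_of_injective _ cast_inj]
      omega
  obtain ⟨i, hi⟩ : ∃ i, i ∉ S := by
    by_contra h
    push Not at h
    exact hne (Finset.eq_univ_iff_forall.mpr h)
  have := h2 i hi
  rw [h0] at this
  simp at this

lemma isCx_cyc (n d : ℕ) (hd : 1 ≤ d) (hdn : d < n) : IsCx (cyc n d) := by
  refine ⟨?_, ?_⟩
  · rw [mem_cyc]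
    refine ⟨?_, -1, by simp, by simp, by simp⟩
    intro h
    have h1 : (⟨0, by omega⟩ : Fin n) ∈ (∅ : Finset (Fin n)) := by
      rw [h]
      exact Finset.mem_univ _
    simp at h1
  · intro S hS τ hτ
    have hcard := card_le hS
    obtain ⟨hne, q, hq, h1, h2⟩ := (mem_cyc S).mp hS
    rw [mem_cyc]
    refine ⟨fun h => hne (Finset.univ_subset_iff.mp (h ▸ hτ)), ?_⟩
    set p : Polynomial ℝ := Lagrange.interpolate S (fun i : Fin n => ((i : ℕ) : ℝ))
      (fun i => if i ∈ τ then 0 else -1) with hp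
    have hinj : Set.InjOn (fun i : Fin n => ((i : ℕ) : ℝ)) S := cast_inj.injOn
    have hpe : ∀ i ∈ S, p.eval ((i : ℕ) : ℝ) = if i ∈ τ then 0 else -1 := by
      intro i hi
      exact Lagrange.eval_interpolate_at_node _ hinj hi
    have hpd : p.natDegree ≤ d := by
      have h3 : p.degree < S.card := Lagrange.degree_interpolate_lt _ hinj
      have h4 : p.degree ≤ (d : ℕ) := h3.le.trans (by exact_mod_cast hcard)
      exact Polynomial.natDegree_le_iff_degree_le.mpr h4
    have hev : ∀ᶠ ε in 𝓝[>] (0 : ℝ), ∀ i : Fin n, i ∉ S →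
        q.eval ((i : ℕ) : ℝ) + ε * p.eval ((i : ℕ) : ℝ) < 0 := by
      rw [Filter.eventually_all]
      intro i
      by_cases hi : i ∈ S
      · exact Filter.Eventually.of_forall fun ε h => absurd hi h
      · have hc : Continuous fun ε : ℝ =>
            q.eval ((i : ℕ) : ℝ) + ε * p.eval ((i : ℕ) : ℝ) := by fun_prop
        have h3 : ∀ᶠ ε in 𝓝 (0 : ℝ),
            q.eval ((i : ℕ) : ℝ) + ε * p.eval ((i : ℕ) : ℝ) < 0 := by
          refine hc.continuousAt.eventually_lt continuousAt_const ?_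
          simpa using h2 i hi
        exact (h3.filter_mono nhdsWithin_le_nhds).mono fun ε h _ => h
    obtain ⟨ε, hε, hε0⟩ := (hev.and self_mem_nhdsWithin).exists
    have hε0' : 0 < ε := hε0
    refine ⟨q + Polynomial.C ε * p, ?_, ?_, ?_⟩
    · refine (Polynomial.natDegree_add_le _ _).trans (max_le hq ?_)
      exact (Polynomial.natDegree_C_mul_le _ _).trans hpd
    · intro i hi
      rw [Polynomial.eval_add, Polynomial.eval_mul, Polynomial.eval_C, h1 i (hτ hi),
        hpe i (hτ hi), if_pos hi]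
      ring
    · intro i hi
      rw [Polynomial.eval_add, Polynomial.eval_mul, Polynomial.eval_C]
      by_cases hiS : i ∈ S
      · rw [h1 i hiS, hpe i hiS, if_neg hi]
        linarith
      · exact hε i hiS

/-- the linear map -/
noncomputable def FF (n d : ℕ) (x : Fin n → ℝ) (j : Fin d) : ℝ :=
  ∑ v, x v * (((v : ℕ) : ℝ) ^ ((j : ℕ) + 1) -
    (∑ w : Fin n, ((w : ℕ) : ℝ) ^ ((j : ℕ) + 1)) / n)

lemma FF_pair {n d : ℕ} (x : Fin n → ℝ) (a : Fin d → ℝ) :
    ∑ j, a j * FF n d x j = ∑ v, x v * (∑ j : Fin d, a j * ((v : ℕ) : ℝ) ^ ((j : ℕ) + 1) -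
      (∑ w : Fin n, ∑ j : Fin d, a j * ((w : ℕ) : ℝ) ^ ((j : ℕ) + 1)) / n) := by
  unfold FF
  simp_rw [Finset.mul_sum]
  rw [Finset.sum_comm]
  refine Finset.sum_congr rfl fun v _ => ?_
  rw [Finset.sum_comm (s := (univ : Finset (Fin n))) (t := (univ : Finset (Fin d)))]
  rw [Finset.sum_div, ← Finset.sum_sub_distrib, Finset.mul_sum]
  refine Finset.sum_congr rfl fun j _ => ?_
  rw [← Finset.mul_sum]
  ring

lemma key {n d : ℕ} (hdn : d < n) {x y : Fin n → ℝ} (hx : x ∈ coneSet (cyc n d))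
    (hy : y ∈ coneSet (cyc n d)) (hxy : ∀ i, x i = 0 ∨ y i = 0) (hF : FF n d x = FF n d y)
    (hle : ∑ i, y i ≤ ∑ i, x i) : x = 0 ∧ y = 0 := by
  obtain ⟨hx0, S, hS, hxS⟩ := hx
  obtain ⟨hy0, -⟩ := hy
  have hcard := card_le hS
  obtain ⟨hne, hac⟩ : S ≠ univ ∧ ∃ a : Fin d → ℝ, ∃ c : ℝ,
      (∀ i ∈ S, ∑ j : Fin d, a j * ((i : ℕ) : ℝ) ^ ((j : ℕ) + 1) = c) ∧
      (∀ i : Fin n, i ∉ S → ∑ j : Fin d, a j * ((i : ℕ) : ℝ) ^ ((j : ℕ) + 1) < c) := by
    simpa [cyc] using hS
  obtain ⟨a, c, h1, h2⟩ := hac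
  set g : Fin n → ℝ := fun v => ∑ j : Fin d, a j * ((v : ℕ) : ℝ) ^ ((j : ℕ) + 1) with hg
  have hgS : ∀ i ∈ S, g i = c := h1
  have hgn : ∀ i, i ∉ S → g i < c := h2
  have hgle : ∀ i, g i ≤ c := fun i => by
    by_cases hi : i ∈ S
    · exact (hgS i hi).le
    · exact (hgn i hi).le
  have hn0 : (0 : ℝ) < n := by exact_mod_cast (by omega : 0 < n)
  obtain ⟨i0, hi0⟩ : ∃ i, i ∉ S := by
    by_contra h
    push Not at h
    exact hne (Finset.eq_univ_iff_forall.mpr h)
  have hcen : (∑ w, g w) / n < c := by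
    rw [div_lt_iff₀ hn0]
    calc ∑ w, g w < ∑ _w : Fin n, c := Finset.sum_lt_sum (fun i _ => hgle i)
          ⟨i0, Finset.mem_univ _, hgn i0 hi0⟩
      _ = c * n := by simp [mul_comm]
  set δ := c - (∑ w, g w) / n with hδ
  have hδ0 : 0 < δ := by linarith
  have ex : ∑ j, a j * FF n d x j = δ * ∑ i, x i := by
    rw [FF_pair, Finset.mul_sum]
    refine Finset.sum_congr rfl fun v _ => ?_
    by_cases hv : v ∈ S
    · show x v * (g v - (∑ w, g w) / n) = δ * x v
      rw [hgS v hv]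
      ring
    · rw [hxS v hv]
      ring
  have ey : ∑ j, a j * FF n d y j = δ * ∑ i, y i - ∑ i, y i * (c - g i) := by
    rw [FF_pair, Finset.mul_sum, ← Finset.sum_sub_distrib]
    refine Finset.sum_congr rfl fun v _ => ?_
    show y v * (g v - (∑ w, g w) / n) = δ * y v - y v * (c - g v)
    rw [hδ]
    ring
  have hnn : ∀ i ∈ (univ : Finset (Fin n)), 0 ≤ y i * (c - g i) := fun i _ =>
    mul_nonneg (hy0 i) (by linarith [hgle i])
  have hsum0 : ∑ i, y i * (c - g i) = 0 := by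
    have e1 : δ * ∑ i, x i = δ * ∑ i, y i - ∑ i, y i * (c - g i) := by
      rw [← ex, ← ey, hF]
    have e2 := Finset.sum_nonneg hnn
    have e3 : δ * ∑ i, y i ≤ δ * ∑ i, x i := mul_le_mul_of_nonneg_left hle hδ0.le
    linarith
  have hsumeq : ∑ i, x i = ∑ i, y i := by
    have e1 : δ * ∑ i, x i = δ * ∑ i, y i - ∑ i, y i * (c - g i) := by
      rw [← ex, ← ey, hF]
    rw [hsum0, sub_zero] at e1
    exact mul_left_cancel₀ hδ0.ne' e1
  have hyS : ∀ i, i ∉ S → y i = 0 := by
    intro i hi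
    have h3 := (Finset.sum_eq_zero_iff_of_nonneg hnn).mp hsum0 i (Finset.mem_univ i)
    rcases mul_eq_zero.mp h3 with h | h
    · exact h
    · linarith [hgn i hi]
  -- the moments of the difference
  have hmom : ∀ j, j ≤ d → ∑ v, (x v - y v) * ((v : ℕ) : ℝ) ^ j = 0 := by
    intro j hj
    rcases Nat.eq_zero_or_pos j with rfl | hj0
    · simp only [pow_zero, mul_one, Finset.sum_sub_distrib]
      linarith
    · obtain ⟨i, rfl⟩ : ∃ i, j = i + 1 := ⟨j - 1, by omega⟩
      have h3 := congrFun hF ⟨i, by omega⟩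
      unfold FF at h3
      simp only [mul_sub, Finset.sum_sub_distrib, ← Finset.sum_mul] at h3
      rw [hsumeq] at h3
      simp only [sub_mul, Finset.sum_sub_distrib]
      linarith
  have hpoly : ∀ p : Polynomial ℝ, p.natDegree ≤ d →
      ∑ v, (x v - y v) * p.eval ((v : ℕ) : ℝ) = 0 := by
    intro p hp
    have h3 : ∀ v : Fin n, (x v - y v) * p.eval ((v : ℕ) : ℝ) =
        ∑ j ∈ Finset.range (d + 1), p.coeff j * ((x v - y v) * ((v : ℕ) : ℝ) ^ j) := by
      intro v
      rw [Polynomial.eval_eq_sum_range' (Nat.lt_succ_of_le hp), Finset.mul_sum]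
      refine Finset.sum_congr rfl fun j _ => ?_
      ring
    simp_rw [h3]
    rw [Finset.sum_comm]
    refine Finset.sum_eq_zero fun j hj => ?_
    rw [← Finset.mul_sum, hmom j (by simpa [Nat.lt_succ_iff] using hj), mul_zero]
  have hz : ∀ v, x v - y v = 0 := by
    intro v
    by_cases hv : v ∈ S
    · have h3 := hpoly (∏ w ∈ S.erase v, (Polynomial.X - Polynomial.C ((w : ℕ) : ℝ))) (by
        rw [Polynomial.natDegree_prod_of_monic _ _ (fun w _ => Polynomial.monic_X_sub_C _)]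
        simp only [Polynomial.natDegree_X_sub_C, Finset.sum_const, smul_eq_mul, mul_one]
        exact (Finset.card_le_card (Finset.erase_subset _ _)).trans hcard)
      rw [Finset.sum_eq_single v] at h3
      · rcases mul_eq_zero.mp h3 with h | h
        · exact h
        · exfalso
          rw [Polynomial.eval_prod, Finset.prod_eq_zero_iff] at h
          obtain ⟨w, hw, hw0⟩ := h
          simp only [Polynomial.eval_sub, Polynomial.eval_X, Polynomial.eval_C] at hw0
          have : v = w := cast_inj (sub_eq_zero.mp hw0)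
          exact (Finset.ne_of_mem_erase hw) this.symm
      · intro w _ hwv
        by_cases hwS : w ∈ S
        · rw [Polynomial.eval_prod, Finset.prod_eq_zero (Finset.mem_erase.mpr ⟨hwv, hwS⟩), mul_zero]
          simp
        · rw [hxS w hwS, hyS w hwS]
          ring
      · intro h
        exact absurd (Finset.mem_univ v) h
    · rw [hxS v hv, hyS v hv, sub_zero]
  constructor
  · funext i
    rcases hxy i with h | h
    · exact h
    · have := hz i
      simp only [Pi.zero_apply]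
      linarith
  · funext i
    rcases hxy i with h | h
    · have := hz i
      simp only [Pi.zero_apply]
      linarith
    · exact h

/-- **CYC.** -/
theorem cyc_emb : StCyc := by
  intro n d hd hdn
  refine ⟨isCx_cyc n d hd hdn, FF n d, ?_, ?_⟩
  · refine Continuous.continuousOn ?_
    unfold FF
    fun_prop
  · intro x hx y hy hxy hF
    rcases le_total (∑ i, y i) (∑ i, x i) with h | h
    · exact key hdn hx hy hxy hF h
    · exact (key hdn hy hx (fun i => (hxy i).symm) hF.symm h).symm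

end Pool.Agent.W540.KS
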