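import Pool.Agent.W488.KS.Stm

/-!
# KS: the intertwining map is injective on the odd part
-/

set_option autoImplicit false

namespace Pool.Agent.W540.KS.Ker

open Matrix CliffordAlgebra Pool.Agent.W488.KS

theorem qf_apply {n : ℕ} (Q : Matrix (Fin n) (Fin n) ℚ) (v : Fin n → ℚ) :
    qf Q v = Matrix.toBilin' Q v v := rfl

/-- a nonzero symmetric form has an anisotropic vector -/
theorem exists_aniso {n : ℕ} (Q : Matrix (Fin n) (Fin n) ℚ) (hs : Qᵀ = Q) (hd : Q.det ≠ 0)
    (i₀ : Fin n) : ∃ e : Fin n → ℚ, qf Q e ≠ 0 := by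
  by_contra hcon
  push Not at hcon
  apply hd
  have hQ : Q = 0 := by
    ext i j
    have h1 := hcon (Pi.single i 1 + Pi.single j 1)
    have h2 := hcon (Pi.single i 1)
    have h3 := hcon (Pi.single j 1)
    rw [qf_apply] at h1 h2 h3
    rw [Matrix.toBilin'_single] at h2 h3
    simp only [map_add, LinearMap.add_apply, Matrix.toBilin'_single] at h1
    have h4 : Q j i = Q i j := by
      conv_lhs => rw [← hs]
      rfl
    rw [h2, h3, h4] at h1
    simp only [Matrix.zero_apply]
    linarith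
  rw [hQ]
  have : Nonempty (Fin n) := ⟨i₀⟩
  exact Matrix.det_zero

/-- **KER** -/
theorem main : S_ker := by
  intro n a b Q hs hd hsimple Θ α β μ hμ hΘ m hm hm0
  obtain ⟨i₀, hi₀⟩ := hΘ
  obtain ⟨e, he⟩ := exists_aniso Q hs hd i₀
  set A : CliffordAlgebra (qf Q) := ι (qf Q) e with hA
  have hAA : A * A = algebraMap ℚ _ (qf Q e) := ι_sq_scalar _ _
  have hAo : A ∈ evenOdd (qf Q) 1 := ι_mem_evenOdd_one _ _
  have hAA' : ∀ x : CliffordAlgebra (qf Q), (qf Q e)⁻¹ • (A * (A * x)) = x := by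
    intro x
    rw [← mul_assoc, hAA, ← Algebra.smul_def, smul_smul, inv_mul_cancel₀ he, one_smul]
  have mem11 : ∀ x y : CliffordAlgebra (qf Q), x ∈ evenOdd (qf Q) 1 → y ∈ evenOdd (qf Q) 1 →
      x * y ∈ evenOdd (qf Q) 0 := by
    intro x y hx hy
    have := SetLike.mul_mem_graded hx hy
    rwa [show (1 : ZMod 2) + 1 = 0 from rfl] at this
  have mem10 : ∀ x y : CliffordAlgebra (qf Q), x ∈ evenOdd (qf Q) 1 → y ∈ evenOdd (qf Q) 0 →
      x * y ∈ evenOdd (qf Q) 1 := by
    intro x y hx hy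
    have := SetLike.mul_mem_graded hx hy
    rwa [show (1 : ZMod 2) + 0 = 1 from rfl] at this
  -- the formula without reversal
  have hμ1 : ∀ (v : Fin n → ℚ) (z : even (qf Q)),
      μ (ι (qf Q) v * z) = (α z)ᵀ * (∑ i, v i • Θ i) := by
    intro v z
    have h := hμ v z 1
    rw [map_one β, Matrix.mul_one] at h
    rw [show ((1 : even (qf Q)) : CliffordAlgebra (qf Q)) = 1 from rfl, reverse.map_one,
      one_mul] at h
    exact h
  -- the two-sided ideal
  let I : TwoSidedIdeal (even (qf Q)) := TwoSidedIdeal.mk' {z | μ (A * z) = 0}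
    (by simp)
    (by
      intro x y hx hy
      simp only [Set.mem_ofPred_eq] at hx hy ⊢
      rw [show ((x + y : even (qf Q)) : CliffordAlgebra (qf Q)) = x + y from rfl, mul_add,
        map_add, hx, hy, add_zero])
    (by
      intro x hx
      simp only [Set.mem_ofPred_eq] at hx ⊢
      rw [show ((-x : even (qf Q)) : CliffordAlgebra (qf Q)) = -x from rfl, mul_neg,
        map_neg, hx, neg_zero])
    (by
      intro y z hz
      simp only [Set.mem_ofPred_eq] at hz ⊢
      have hw : (qf Q e)⁻¹ • (A * ((y : CliffordAlgebra (qf Q)) * A)) ∈ evenOdd (qf Q) 0 := by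
        apply Submodule.smul_mem
        rw [← mul_assoc]
        exact mem11 _ _ (mem10 _ _ hAo y.2) hAo
      have hw' : reverse ((qf Q e)⁻¹ • (A * ((y : CliffordAlgebra (qf Q)) * A))) ∈
          even (qf Q) := by
        have h0 : reverse ((qf Q e)⁻¹ • (A * ((y : CliffordAlgebra (qf Q)) * A))) ∈
          evenOdd (qf Q) 0 := by
          rw [reverse_mem_evenOdd_iff]
          exact hw
        exact h0
      have h1 := hμ e z ⟨_, hw'⟩
      rw [← hμ1 e z] at h1
      rw [show ι (qf Q) e = A from rfl, hz, Matrix.zero_mul] at h1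
      change μ (reverse (reverse ((qf Q e)⁻¹ • (A * ((y : CliffordAlgebra (qf Q)) * A)))) * A *
        (z : CliffordAlgebra (qf Q))) = 0 at h1
      rw [reverse_reverse] at h1
      rw [show ((y * z : even (qf Q)) : CliffordAlgebra (qf Q)) = y * z from rfl]
      rw [← h1]
      congr 1
      rw [smul_mul_assoc, smul_mul_assoc, mul_assoc A, mul_assoc (y : CliffordAlgebra (qf Q)) A A,
        hAA, ← Algebra.commutes, ← Algebra.smul_def, mul_smul_comm, smul_mul_assoc, smul_smul,
        inv_mul_cancel₀ he, one_smul, mul_assoc])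
    (by
      intro x y hx
      simp only [Set.mem_ofPred_eq] at hx ⊢
      rw [show A = ι (qf Q) e from rfl] at hx ⊢
      rw [hμ1 e x] at hx
      rw [hμ1 e (x * y), map_mul, Matrix.transpose_mul, Matrix.mul_assoc, hx, Matrix.mul_zero])
  have hI : ∀ z, z ∈ I ↔ μ (A * z) = 0 := fun z => TwoSidedIdeal.mem_mk' _ _ _ _ _ _ _
  rcases eq_bot_or_eq_top I with h | h
  · have hz : (qf Q e)⁻¹ • (A * m) ∈ evenOdd (qf Q) 0 := Submodule.smul_mem _ _ (mem11 _ _ hAo hm)
    have h1 : (⟨_, hz⟩ : even (qf Q)) ∈ I := by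
      rw [hI]
      change μ (A * ((qf Q e)⁻¹ • (A * m))) = 0
      rw [mul_smul_comm, hAA', hm0]
    rw [h, TwoSidedIdeal.mem_bot] at h1
    have h2 : (qf Q e)⁻¹ • (A * m) = 0 := congrArg Subtype.val h1
    have h3 := hAA' m
    rw [← mul_smul_comm, h2, mul_zero] at h3
    exact h3.symm
  · exfalso
    apply hi₀
    have hz : (qf Q e)⁻¹ • (A * ι (qf Q) (Pi.single i₀ 1)) ∈ evenOdd (qf Q) 0 :=
      Submodule.smul_mem _ _ (mem11 _ _ hAo (ι_mem_evenOdd_one _ _))
    have h1 : (⟨_, hz⟩ : even (qf Q)) ∈ I := by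
      rw [h]
      exact TwoSidedIdeal.mem_top _
    rw [hI] at h1
    change μ (A * ((qf Q e)⁻¹ • (A * ι (qf Q) (Pi.single i₀ 1)))) = 0 at h1
    rw [mul_smul_comm, hAA'] at h1
    have h2 := hμ1 (Pi.single i₀ 1) 1
    rw [show ((1 : even (qf Q)) : CliffordAlgebra (qf Q)) = 1 from rfl, mul_one, h1, map_one,
      Matrix.transpose_one, Matrix.one_mul] at h2
    rw [Finset.sum_eq_single i₀] at h2
    · rw [Pi.single_eq_same, one_smul] at h2
      exact h2.symm
    · intro j _ hj
      rw [Pi.single_eq_of_ne hj, zero_smul]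
    · intro h'
      exact absurd (Finset.mem_univ _) h'

end Pool.Agent.W540.KS.Ker
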